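import Pool.Agent.Q61.OC4

/-!
# Order continuous functionals on projective Banach lattices are determined by atoms
-/

set_option autoImplicit false

open Filter Topology
open Q100.U

namespace Pool.Agent.Results.MP_100021_an.OrderContinuousDeterminedByAtoms

universe u

/-- Atoms of a Banach lattice: `a > 0` and every `0 ≤ x ≤ a` is a scalar multiple of `a`. -/
def IsLatticeAtom {X : BLat.{u}} (a : X) : Prop :=
  0 < a ∧ ∀ x : X, 0 ≤ x → x ≤ a → ∃ c : ℝ, 0 ≤ c ∧ x = c • a

/-- Order continuous functionals: `f (x i) → 0` for every decreasing net `x` with infimum `0`. -/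
def IsOrderContinuous {X : BLat.{u}} (f : X →L[ℝ] ℝ) : Prop :=
  ∀ (ι : Type u) [Preorder ι] [IsDirectedOrder ι] [Nonempty ι] (x : ι → X), Antitone x →
    IsGLB (Set.range x) 0 → Tendsto (fun i => f (x i)) atTop (𝓝 0)

/-- **Theorem.** On a projective Banach lattice the order continuous functionals are determined by
their values at the atoms. -/
theorem result (X : BLat.{u}) (hX : Projective X) (f g : X →L[ℝ] ℝ) (hf : IsOrderContinuous f)
    (hg : IsOrderContinuous g) (h : ∀ a : X, IsLatticeAtom a → f a = g a) : f = g := by
  have h1 : f - g = 0 := Q61.OC.main hX (Q61.OC.OrderCont.sub hf hg) fun a ha => by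
    rw [_root_.sub_apply, h a ha, sub_self]
  exact sub_eq_zero.1 h1

end Pool.Agent.Results.MP_100021_an.OrderContinuousDeterminedByAtoms
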